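import Pool.Agent.Helper15.GS.GoalsF
import Pool.Agent.Helper95.Lin.Basics
import Pool.Agent.Helper59.SP.WCH
import Pool.Agent.Helper16.Abund.Trace2

/-! # GS: KAHM, a Hermitian metric which is closed on the étale relation is Kähler -/

open Complex Metric Set Filter Topology MeasureTheory
open scoped ContDiff ComplexConjugate ComplexOrder Manifold Matrix

namespace Pool.Agent.Helper34.GS

open Pool.Agent.Helper95.Lin Pool.Agent.Helper16.Abund Pool.Agent.Helper92.Orb
  Pool.Agent.Helper10.SP Pool.Agent.Helper95.RK Pool.Agent.Helper57.HS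
  Pool.Agent.Helper15.HS Pool.Agent.Helper10.HS Pool.Agent.Helper15.GS

universe u v

/-! ## Linear algebra -/

/-- The derivative in terms of the Wirtinger derivatives. -/
lemma two_fderiv {n : ℕ} (f : Cn n → ℂ) (x u : Cn n) :
    2 * fderiv ℝ f x u = (∑ l, u l * cd l f x) + ∑ l, conj (u l) * cdb l f x := by
  have h1 := Pool.Agent.Helper59.SP.phi_expand (fderiv ℝ f x) u
  have h2 := Pool.Agent.Helper59.SP.phib_expand (fderiv ℝ f x) u
  have e1 : ∀ l, cd l f x = fderiv ℝ f x (Pi.single l 1) -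
      I * fderiv ℝ f x (I • (Pi.single l 1 : Cn n)) := by
    intro l
    unfold cd
    rw [Pool.Agent.Helper59.SP.single_I]
  have e2 : ∀ l, cdb l f x = fderiv ℝ f x (Pi.single l 1) +
      I * fderiv ℝ f x (I • (Pi.single l 1 : Cn n)) := by
    intro l
    unfold cdb
    rw [Pool.Agent.Helper59.SP.single_I]
  simp only [e1, e2]
  rw [← h1, ← h2]
  ring

lemma cdb_conj {n : ℕ} {f : Cn n → ℂ} {x : Cn n} (hf : DifferentiableAt ℝ f x) (l : Fin n) :
    cdb l (fun y => conj (f y)) x = conj (cd l f x) := by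
  have h : HasFDerivAt (fun y => conj (f y)) ((Complex.conjCLE : ℂ →L[ℝ] ℂ).comp (fderiv ℝ f x)) x :=
    (Complex.conjCLE : ℂ →L[ℝ] ℂ).hasFDerivAt.comp x hf.hasFDerivAt
  unfold cdb cd
  rw [h.fderiv]
  simp

/-- The matrix form of the derivative in the direction `u`. -/
noncomputable def dH {n : ℕ} (H : Cn n → Matrix (Fin n) (Fin n) ℂ) (x u : Cn n) :
    Matrix (Fin n) (Fin n) ℂ := Matrix.of fun i j => fderiv ℝ (fun y => H y i j) x u

/-- The form of a closed matrix field is closed. -/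
lemma closed_dH {n : ℕ} {T : Set (Cn n)} (hT : IsOpen T) {H : Cn n → Matrix (Fin n) (Fin n) ℂ}
    (hH : CHF H T) {x : Cn n} (hx : x ∈ T) (u v w : Cn n) :
    (hermi (dH H x u) v w).im + (hermi (dH H x v) w u).im + (hermi (dH H x w) u v).im = 0 := by
  have hd : ∀ i j, DifferentiableAt ℝ (fun y => H y i j) x := fun i j =>
    ((hH.smooth i j).contDiffAt (hT.mem_nhds hx)).differentiableAt (by simp)
  have hcdb : ∀ i j l, cdb l (fun y => H y i j) x = conj (cd l (fun y => H y j i) x) := by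
    intro i j l
    rw [← cdb_conj (hd j i)]
    unfold cdb
    have e : (fun y => H y i j) =ᶠ[𝓝 x] fun y => conj (H y j i) := by
      filter_upwards [hT.mem_nhds hx] with y hy
      exact ((hH.herm y hy).apply i j).symm
    rw [e.fderiv_eq]
  set a : Cn n → Cn n → Cn n → ℂ := fun u v w =>
    ∑ i, ∑ j, ∑ l, u l * cd l (fun y => H y i j) x * v i * conj (w j) with ha
  have hsym : ∀ u v w, a u v w = a v u w := by
    intro u v w
    simp only [ha]
    have e1 : ∀ u v : Cn n, ∑ i, ∑ j, ∑ l, u l * cd l (fun y => H y i j) x * v i * conj (w j) =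
        ∑ j, ∑ i, ∑ l, u l * cd l (fun y => H y i j) x * v i * conj (w j) := fun u v =>
      Finset.sum_comm
    rw [e1, e1]
    refine Finset.sum_congr rfl fun j _ => ?_
    rw [Finset.sum_comm]
    refine Finset.sum_congr rfl fun i _ => Finset.sum_congr rfl fun l _ => ?_
    rw [hH.closed x hx l j i]
    ring
  have hkey : ∀ u v w, 2 * hermi (dH H x u) v w = a u v w + conj (a u w v) := by
    intro u v w
    simp only [hermi, dH, Matrix.of_apply, Finset.mul_sum]
    have e1 : ∀ i j, 2 * (fderiv ℝ (fun y => H y i j) x u * v i * conj (w j)) =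
        (∑ l, u l * cd l (fun y => H y i j) x * v i * conj (w j)) +
        conj (∑ l, u l * cd l (fun y => H y j i) x * w j * conj (v i)) := by
      intro i j
      have h2 := two_fderiv (fun y => H y i j) x u
      have h3 : 2 * (fderiv ℝ (fun y => H y i j) x u * v i * conj (w j)) =
          (2 * fderiv ℝ (fun y => H y i j) x u) * v i * conj (w j) := by ring
      rw [h3, h2, add_mul, add_mul, Finset.sum_mul, Finset.sum_mul, Finset.sum_mul,
        Finset.sum_mul, map_sum]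
      congr 1
      refine Finset.sum_congr rfl fun l _ => ?_
      rw [hcdb]
      simp only [map_mul, Complex.conj_conj]
      ring
    simp only [e1, Finset.sum_add_distrib, ← map_sum]
    congr 1
    rw [Finset.sum_comm]
  have him : ∀ u v w, 2 * (hermi (dH H x u) v w).im = (a u v w).im - (a u w v).im := by
    intro u v w
    have := congrArg Complex.im (hkey u v w)
    rw [Complex.add_im, Complex.conj_im] at this
    have h2 : (2 * hermi (dH H x u) v w).im = 2 * (hermi (dH H x u) v w).im := by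
      simp [Complex.mul_im]
    rw [h2] at this
    linarith
  have h1 := him u v w
  have h2 := him v w u
  have h3 := him w u v
  rw [hsym u v w] at h1
  rw [hsym v w u] at h2
  rw [hsym w u v] at h3
  linarith

/-! ## Pull backs -/

section pull

variable {n : ℕ} {N T : Set (Cn n)} {τ : Cn n → Cn n} {H : Cn n → Matrix (Fin n) (Fin n) ℂ}

lemma hasFDerivAt_fderiv_apply (hN : IsOpen N) (hτ : DifferentiableOn ℂ τ N) {z : Cn n}
    (hz : z ∈ N) (u : Cn n) (i : Fin n) :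
    DifferentiableAt ℝ (fun y => fderiv ℂ τ y u i) z := by
  have h1 : DifferentiableAt ℂ (fderiv ℂ τ) z :=
    (holo_fderiv hN hτ).differentiableAt (hN.mem_nhds hz)
  have h2 : DifferentiableAt ℂ (fun y => fderiv ℂ τ y u) z := h1.clm_apply (differentiableAt_const u)
  have h3 : DifferentiableAt ℂ (fun y => fderiv ℂ τ y u i) z := differentiableAt_pi.1 h2 i
  exact h3.restrictScalars ℝ

/-- Symmetry of the second derivatives. -/
lemma snd_symm (hN : IsOpen N) (hτ : DifferentiableOn ℂ τ N) {z : Cn n} (hz : z ∈ N)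
    (u w : Cn n) (i : Fin n) :
    fderiv ℝ (fun y => fderiv ℂ τ y u i) z w = fderiv ℝ (fun y => fderiv ℂ τ y w i) z u := by
  have hsm : ContDiffOn ℝ ∞ τ N := holo_contDiffOn_real hN hτ
  have hat : ContDiffAt ℝ ∞ τ z := hsm.contDiffAt (hN.mem_nhds hz)
  have hsymm := hat.isSymmSndFDerivAt (by
    simp only [minSmoothness_of_isRCLikeNormedField]; exact ENat.LEInfty.out)
  have hd : DifferentiableAt ℝ (fderiv ℝ τ) z :=
    (hat.fderiv_right (m := ∞) (by simp)).differentiableAt (by simp)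
  have key : ∀ u w : Cn n, fderiv ℝ (fun y => fderiv ℂ τ y u i) z w =
      fderiv ℝ (fderiv ℝ τ) z w u i := by
    intro u w
    have e : (fun y => fderiv ℂ τ y u i) =ᶠ[𝓝 z] fun y => fderiv ℝ τ y u i := by
      filter_upwards [hN.mem_nhds hz] with y hy
      have := (hτ.differentiableAt (hN.mem_nhds hy)).fderiv_restrictScalars ℝ
      rw [this]
      rfl
    rw [e.fderiv_eq]
    have h1 : HasFDerivAt (fun y => fderiv ℝ τ y u) ((fderiv ℝ (fderiv ℝ τ) z).flip u) z := by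
      refine (hd.hasFDerivAt.clm_apply (hasFDerivAt_const u z)).congr_fderiv ?_
      ext w
      simp
    have h2 : HasFDerivAt (fun y => fderiv ℝ τ y u i)
        ((ContinuousLinearMap.proj (R := ℝ) (φ := fun _ : Fin n => ℂ) i).comp
          ((fderiv ℝ (fderiv ℝ τ) z).flip u)) z :=
      (ContinuousLinearMap.proj (R := ℝ) (φ := fun _ : Fin n => ℂ) i).hasFDerivAt.comp z h1
    rw [h2.fderiv]
    rfl
  rw [key, key]
  exact congrFun (hsymm w u) i

/-- The derivative of the pulled back form. -/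
lemma fderiv_pull (hN : IsOpen N) (hT : IsOpen T) (hτ : DifferentiableOn ℂ τ N)
    (hmaps : MapsTo τ N T) (hH : ∀ i j, ContDiffOn ℝ ∞ (fun x => H x i j) T) {z : Cn n}
    (hz : z ∈ N) (u v w : Cn n) :
    fderiv ℝ (fun y => hermi (H (τ y)) (fderiv ℂ τ y u) (fderiv ℂ τ y v)) z w =
      hermi (dH H (τ z) (fderiv ℂ τ z w)) (fderiv ℂ τ z u) (fderiv ℂ τ z v) +
      hermi (H (τ z)) (fun i => fderiv ℝ (fun y => fderiv ℂ τ y u i) z w) (fderiv ℂ τ z v) +
      hermi (H (τ z)) (fderiv ℂ τ z u) (fun i => fderiv ℝ (fun y => fderiv ℂ τ y v i) z w) := by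
  have hτr : HasFDerivAt τ ((fderiv ℂ τ z).restrictScalars ℝ) z :=
    (hτ.differentiableAt (hN.mem_nhds hz)).hasFDerivAt.restrictScalars ℝ
  have h1 : ∀ i j, HasFDerivAt (fun y => H (τ y) i j)
      ((fderiv ℝ (fun x => H x i j) (τ z)).comp ((fderiv ℂ τ z).restrictScalars ℝ)) z := by
    intro i j
    have h := (((hH i j).contDiffAt (hT.mem_nhds (hmaps hz))).differentiableAt
      (by simp)).hasFDerivAt
    exact h.comp z hτr
  have h2 : ∀ (u : Cn n) (i : Fin n), HasFDerivAt (fun y => fderiv ℂ τ y u i)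
      (fderiv ℝ (fun y => fderiv ℂ τ y u i) z) z := fun u i =>
    (hasFDerivAt_fderiv_apply hN hτ hz u i).hasFDerivAt
  have h3 : ∀ (u : Cn n) (i : Fin n), HasFDerivAt (fun y => conj (fderiv ℂ τ y u i))
      ((Complex.conjCLE : ℂ →L[ℝ] ℂ).comp (fderiv ℝ (fun y => fderiv ℂ τ y u i) z)) z :=
    fun u i => (Complex.conjCLE : ℂ →L[ℝ] ℂ).hasFDerivAt.comp z (h2 u i)
  have h4 : ∀ i j, HasFDerivAt (fun y => H (τ y) i j * fderiv ℂ τ y u i * conj (fderiv ℂ τ y v j))
      _ z := fun i j => ((h1 i j).mul (h2 u i)).mul (h3 v j)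
  have h5 := HasFDerivAt.fun_sum (u := Finset.univ) fun i _ =>
    HasFDerivAt.fun_sum (u := Finset.univ) fun j _ => h4 i j
  have e : (fun y => hermi (H (τ y)) (fderiv ℂ τ y u) (fderiv ℂ τ y v)) =
      fun y => ∑ i, ∑ j, H (τ y) i j * fderiv ℂ τ y u i * conj (fderiv ℂ τ y v j) := rfl
  rw [e, h5.fderiv]
  simp only [hermi, dH, Matrix.of_apply, ← Finset.sum_add_distrib]
  rw [sum_apply]
  refine Finset.sum_congr rfl fun i _ => ?_
  rw [sum_apply]
  refine Finset.sum_congr rfl fun j _ => ?_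
  simp only [add_apply, smul_apply, ContinuousLinearMap.comp_apply, smul_eq_mul, Pi.mul_apply,
    ContinuousLinearMap.coe_restrictScalars', ContinuousLinearEquiv.coe_coe,
    Complex.conjCLE_apply]
  ring

lemma hermi_conj {A : Matrix (Fin n) (Fin n) ℂ} (hA : A.IsHermitian) (u v : Cn n) :
    conj (hermi A u v) = hermi A v u := by
  simp only [hermi, map_sum, map_mul, Complex.conj_conj]
  rw [Finset.sum_comm]
  refine Finset.sum_congr rfl fun i _ => Finset.sum_congr rfl fun j _ => ?_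
  have : conj (A j i) = A i j := hA.apply i j
  rw [this]
  ring

/-- The pull back of a closed form is closed. -/
lemma closed_pull (hN : IsOpen N) (hT : IsOpen T) (hτ : DifferentiableOn ℂ τ N)
    (hmaps : MapsTo τ N T) (hH : CHF H T) {z : Cn n} (hz : z ∈ N) (u v w : Cn n) :
    fderiv ℝ (fun y => (hermi (H (τ y)) (fderiv ℂ τ y v) (fderiv ℂ τ y w)).im) z u +
    fderiv ℝ (fun y => (hermi (H (τ y)) (fderiv ℂ τ y w) (fderiv ℂ τ y u)).im) z v +
    fderiv ℝ (fun y => (hermi (H (τ y)) (fderiv ℂ τ y u) (fderiv ℂ τ y v)).im) z w = 0 := by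
  have hdiff : ∀ u v : Cn n, DifferentiableAt ℝ
      (fun y => hermi (H (τ y)) (fderiv ℂ τ y u) (fderiv ℂ τ y v)) z := by
    intro u v
    unfold hermi
    refine DifferentiableAt.fun_sum fun i _ => DifferentiableAt.fun_sum fun j _ => ?_
    have h1 : DifferentiableAt ℝ (fun y => H (τ y) i j) z := by
      have h := (((hH.smooth i j).contDiffAt (hT.mem_nhds (hmaps hz))).differentiableAt
        (by simp))
      exact h.comp z ((hτ.differentiableAt (hN.mem_nhds hz)).restrictScalars ℝ)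
    exact (h1.mul (hasFDerivAt_fderiv_apply hN hτ hz u i)).mul
      ((Complex.conjCLE : ℂ →L[ℝ] ℂ).differentiableAt.comp z
        (hasFDerivAt_fderiv_apply hN hτ hz v j))
  have him : ∀ u v w : Cn n, fderiv ℝ
      (fun y => (hermi (H (τ y)) (fderiv ℂ τ y u) (fderiv ℂ τ y v)).im) z w =
      (fderiv ℝ (fun y => hermi (H (τ y)) (fderiv ℂ τ y u) (fderiv ℂ τ y v)) z w).im := by
    intro u v w
    have h := (Complex.imCLM.hasFDerivAt.comp z (hdiff u v).hasFDerivAt).fderiv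
    have h2 : fderiv ℝ (fun y => (hermi (H (τ y)) (fderiv ℂ τ y u) (fderiv ℂ τ y v)).im) z w =
        ((Complex.imCLM).comp (fderiv ℝ
          (fun y => hermi (H (τ y)) (fderiv ℂ τ y u) (fderiv ℂ τ y v)) z)) w := by
      rw [← h]
      rfl
    rw [h2]
    rfl
  rw [him, him, him, fderiv_pull hN hT hτ hmaps hH.smooth hz,
    fderiv_pull hN hT hτ hmaps hH.smooth hz, fderiv_pull hN hT hτ hmaps hH.smooth hz]
  simp only [Complex.add_im]
  have hc := closed_dH hT hH (hmaps hz) (fderiv ℂ τ z u) (fderiv ℂ τ z v) (fderiv ℂ τ z w)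
  have hA := hH.herm (τ z) (hmaps hz)
  have hanti : ∀ a b : Cn n, (hermi (H (τ z)) a b).im = -(hermi (H (τ z)) b a).im := by
    intro a b
    rw [← hermi_conj hA a b, Complex.conj_im, neg_neg]
  have hs : ∀ u w : Cn n, (fun i => fderiv ℝ (fun y => fderiv ℂ τ y u i) z w) =
      fun i => fderiv ℝ (fun y => fderiv ℂ τ y w i) z u := fun u w => by
    funext i
    exact snd_symm hN hτ hz u w i
  have h1 := hanti (fun i => fderiv ℝ (fun y => fderiv ℂ τ y v i) z u) (fderiv ℂ τ z w)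
  have h2 := hanti (fderiv ℂ τ z v) (fun i => fderiv ℝ (fun y => fderiv ℂ τ y w i) z u)
  have h3 := hanti (fun i => fderiv ℝ (fun y => fderiv ℂ τ y w i) z v) (fderiv ℂ τ z u)
  rw [hs v u] at h1 ⊢
  rw [hs w u] at h2 ⊢
  rw [hs w v] at h3 ⊢
  linarith

end pull

/-! ## The main statement -/

/-- KAHM. -/
theorem kahm (hPARH : S_PARH.{u, v}) (hPMH : S_PMH.{u, v}) : S_KAHM.{u, v} := by
  intro n G M _ _ _ _ _ _ _ om q hD hq hinv T E hE hcov hCHF
  obtain ⟨-, -, hP3, -, -⟩ := hPARH hD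
  obtain ⟨hM1, -⟩ := hPMH hD q hq hinv
  obtain ⟨-, -, hM3, -⟩ := hM1 T E hE
  obtain ⟨C, hCT, -, hcov⟩ := hcov
  have hT : IsOpen T := hE.1.1
  refine ⟨hq.1, fun V ψ hψ => ⟨hq.2 V ψ hψ, ?_⟩⟩
  intro z₀ hz₀ u v w
  obtain ⟨hV, hψm⟩ := hψ
  have hψat : ∀ z ∈ V, MDifferentiableAt 𝓘(ℂ, Fin n → ℂ) 𝓘(ℂ, Fin n → ℂ) ψ z := fun z hz =>
    hψm.mdifferentiableAt (hV.mem_nhds hz)
  obtain ⟨γ, x₀, hx₀, hγ⟩ := hcov (ψ z₀)
  set χ := chartAt (Fin n → ℂ) (ψ z₀) with hχ
  have hchart : Par n χ.symm χ.target :=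
    ⟨⟨χ.open_target, mdiff_chart_symm (ψ z₀)⟩, fun z hz => jac_chart_symm_ne_zero (ψ z₀) hz⟩
  have hp : ψ z₀ ∈ χ.source := mem_chart_source _ _
  obtain ⟨τ₀, U, W, hU, hW, hxU, hx'W, hUV, hWT, hτ₀, -, hmaps₀, -, -, hiff⟩ :=
    hP3 χ.target T χ.symm E hchart hE γ (χ (ψ z₀)) (χ.map_source hp) x₀ (hCT hx₀) (by
      rw [χ.left_inv hp, hγ])
  -- the open set
  have hc : ContinuousOn ψ V := hψm.continuousOn
  have hN1 : IsOpen (V ∩ ψ ⁻¹' χ.source) := hc.isOpen_inter_preimage hV χ.open_source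
  have hmχ : ∀ z ∈ V ∩ ψ ⁻¹' χ.source,
      MDifferentiableAt 𝓘(ℂ, Fin n → ℂ) 𝓘(ℂ, Fin n → ℂ) (χ ∘ ψ) z := fun z hz =>
    ((mdiff_chart (ψ z₀)).mdifferentiableAt (χ.open_source.mem_nhds hz.2)).comp z (hψat z hz.1)
  have hcχ : ContinuousOn (χ ∘ ψ) (V ∩ ψ ⁻¹' χ.source) := fun z hz =>
    (hmχ z hz).continuousAt.continuousWithinAt
  set N : Set (Cn n) := (V ∩ ψ ⁻¹' χ.source) ∩ (χ ∘ ψ) ⁻¹' U with hNdef
  have hN : IsOpen N := hcχ.isOpen_inter_preimage hN1 hU
  have hz₀N : z₀ ∈ N := ⟨⟨hz₀, hp⟩, hxU⟩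
  set τ : Cn n → Cn n := fun z => τ₀ (χ (ψ z)) with hτdef
  have hτ : DifferentiableOn ℂ τ N := by
    refine hτ₀.comp (fun z hz => ?_) (fun z hz => hz.2)
    exact (mdifferentiableAt_iff_differentiableAt.1 (hmχ z hz.1)).differentiableWithinAt
  have hmaps : MapsTo τ N T := fun z hz => hWT (hmaps₀ hz.2)
  have heq : ∀ z ∈ N, γ • ψ z = E (τ z) := by
    intro z hz
    have h1 := (hiff (χ (ψ z)) hz.2 (τ z) (hmaps₀ hz.2)).2 rfl
    rwa [χ.left_inv hz.1.2] at h1
  have hform : ∀ z ∈ N, ∀ u v, metricForm n q ψ z u v =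
      (hermi (pm n q E (τ z)) (fderiv ℂ τ z u) (fderiv ℂ τ z v)).im := by
    intro z hz u v
    have hzV : z ∈ V := hz.1.1
    have hEat : MDifferentiableAt 𝓘(ℂ, Fin n → ℂ) 𝓘(ℂ, Fin n → ℂ) E (τ z) :=
      hE.1.2.mdifferentiableAt (hT.mem_nhds (hmaps hz))
    have hτat : MDifferentiableAt 𝓘(ℂ, Fin n → ℂ) 𝓘(ℂ, Fin n → ℂ) τ z :=
      mdifferentiableAt_iff_differentiableAt.2 (hτ.differentiableAt (hN.mem_nhds hz))
    have h1 := mfderiv_comp z hEat hτat
    have h2 := mfderiv_comp z (g := fun y : M => γ • y) (f := ψ) (hD.act.holo γ (ψ z))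
      (hψat z hzV)
    have h3 : (E ∘ τ) =ᶠ[𝓝 z] ((fun y : M => γ • y) ∘ ψ) := by
      filter_upwards [hN.mem_nhds hz] with y hy using (heq y hy).symm
    have h4 := h3.mfderiv_eq (I := 𝓘(ℂ, Fin n → ℂ)) (I' := 𝓘(ℂ, Fin n → ℂ))
    have h5 : ∀ e : Cn n, dvec n E (τ z) (fderiv ℂ τ z e) =
        tvec n (fun y : M => γ • y) (ψ z) (dvec n ψ z e) := by
      intro e
      have h6 : (mfderiv 𝓘(ℂ, Fin n → ℂ) 𝓘(ℂ, Fin n → ℂ) (E ∘ τ) z :
          (Fin n → ℂ) →L[ℂ] (Fin n → ℂ)) e = dvec n E (τ z) (fderiv ℂ τ z e) := by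
        rw [h1, mfderiv_eq_fderiv]
        rfl
      have h7 : (mfderiv 𝓘(ℂ, Fin n → ℂ) 𝓘(ℂ, Fin n → ℂ) ((fun y : M => γ • y) ∘ ψ) z :
          (Fin n → ℂ) →L[ℂ] (Fin n → ℂ)) e =
          tvec n (fun y : M => γ • y) (ψ z) (dvec n ψ z e) := by
        rw [h2]
        rfl
      rw [← h6, ← h7]
      exact congrArg (fun L : Cn n →L[ℂ] Cn n => L e) h4
    unfold metricForm
    rw [hM3 (τ z) (hmaps hz), h5, h5, ← heq z hz, hinv γ (ψ z)]
  have hfd : ∀ u v, fderiv ℝ (fun z => metricForm n q ψ z u v) z₀ =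
      fderiv ℝ (fun z => (hermi (pm n q E (τ z)) (fderiv ℂ τ z u) (fderiv ℂ τ z v)).im) z₀ := by
    intro u v
    apply Filter.EventuallyEq.fderiv_eq
    filter_upwards [hN.mem_nhds hz₀N] with y hy
    exact hform y hy u v
  rw [hfd, hfd, hfd]
  exact closed_pull hN hT hτ hmaps hCHF hz₀N u v w

end Pool.Agent.Helper34.GS
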